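import Pool.Agent.H.MP_b0e7a9_co.A

namespace Pool.Agent.H.MP_fc7dfc_gt

open Finset InnerProductGeometry Pool.Agent.H.MP_b0e7a9_co
open scoped RealInnerProductSpace

abbrev Eu (n : ℕ) := EuclideanSpace ℝ (Fin n)

def cone {ι W : Type} [AddCommGroup W] [Module ℝ W] (v : ι → W) (t : Finset ι) : Set W :=
  {y | ∃ β : ι → ℝ, (∀ i, 0 ≤ β i) ∧ y = ∑ i ∈ t, β i • v i}

noncomputable def lor {d : ℕ} (p q : ℝ × Eu d) : ℝ := p.1 * q.1 - ⟪p.2, q.2⟫

def Hyp (d : ℕ) : Set (ℝ × Eu d) := {p | 0 < p.1 ∧ lor p p = 1}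

noncomputable def hdist {d : ℕ} (p q : ℝ × Eu d) : ℝ := Real.arcosh (lor p q)

lemma rho_eq {d k : ℕ} (hk : k < d) :
    1 - (k : ℝ) * (d + 1) / (d * (k + 1)) = ((d : ℝ) - k) / (d * (k + 1)) := by
  have : (0 : ℝ) < d := by exact_mod_cast (Nat.zero_le k).trans_lt hk
  field_simp; ring

lemma rho_bd {d k : ℕ} (hk : k < d) :
    0 < ((d : ℝ) - k) / (d * (k + 1)) ∧ ((d : ℝ) - k) / (d * (k + 1)) ≤ 1 := by
  have h0 : (0 : ℝ) < d := by exact_mod_cast (Nat.zero_le k).trans_lt hk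
  have h1 : (k : ℝ) < d := by exact_mod_cast hk
  have h2 : (0 : ℝ) ≤ k := Nat.cast_nonneg k
  exact ⟨div_pos (by linarith) (by positivity), div_le_one_of_le₀ (by nlinarith) (by positivity)⟩

lemma cone_mem {ι W : Type} [Fintype ι] [AddCommGroup W] [Module ℝ W] (v : ι → W) (t : Finset ι)
    (μ : ι → ℝ) (h1 : ∀ i, 0 ≤ μ i) (h2 : ∀ i ∉ t, μ i = 0) {s : ℝ} (hs : 0 ≤ s) :
    s • ∑ i, μ i • v i ∈ cone v t := by
  refine ⟨fun i => s * μ i, fun i => mul_nonneg hs (h1 i), ?_⟩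
  rw [← sum_subset (subset_univ t) fun i _ hi => by rw [h2 i hi, zero_smul], smul_sum]
  simp only [smul_smul]

theorem sph (d k : ℕ) (hk : k < d) (R : ℝ) (h0 : 0 < R) (h1 : R < Real.pi / 2)
    (c : Eu (d + 1)) (hc : ‖c‖ = 1) (v : Fin (d + 1) → Eu (d + 1)) (hv : ∀ i, ‖v i‖ = 1)
    (hR : ∀ i, angle c (v i) ≤ R) (hl : LinearIndependent ℝ v) (x : Eu (d + 1)) (hx : ‖x‖ = 1)
    (hxS : x ∈ cone v univ) (ρ : ℝ)
    (h : ∀ t : Finset (Fin (d + 1)), t.card = k + 1 → ∀ y ∈ cone v t, ‖y‖ = 1 → ρ ≤ angle x y) :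
    ρ ≤ Real.arctan (√(((d : ℝ) - k) / (d * (k + 1))) * Real.tan R) := by
  obtain ⟨β, hβ, hxe⟩ := hxS
  obtain ⟨r0, r1⟩ := rho_bd hk
  obtain ⟨r, hr⟩ : ∃ r, r = ((d : ℝ) - k) / (d * (k + 1)) := ⟨_, rfl⟩
  rw [← hr] at r0 r1 ⊢
  have hcos : 0 < Real.cos R := Real.cos_pos_of_mem_Ioo ⟨by linarith, h1⟩
  have hcv : ∀ i, Real.cos R ≤ ⟪c, v i⟫ := by
    intro i
    have := Real.cos_le_cos_of_nonneg_of_le_pi (angle_nonneg _ _) (by linarith [Real.pi_pos]) (hR i)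
    rwa [cos_angle, hc, hv, mul_one, div_one] at this
  obtain ⟨B, hB⟩ : ∃ B, B = ∑ i, β i := ⟨_, rfl⟩
  have hB1 : 1 ≤ B := by
    rw [← hx, hxe, hB]
    refine (norm_sum_le _ _).trans (le_of_eq (sum_congr rfl fun i _ => ?_))
    rw [norm_smul, hv, mul_one, Real.norm_of_nonneg (hβ i)]
  have hB2 : B * Real.cos R ≤ 1 := by
    calc B * Real.cos R = ∑ i, β i * Real.cos R := by rw [hB, sum_mul]
      _ ≤ ∑ i, β i * ⟪c, v i⟫ := sum_le_sum fun i _ => mul_le_mul_of_nonneg_left (hcv i) (hβ i)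
      _ = ⟪c, x⟫ := by rw [hxe, inner_sum]; simp only [real_inner_smul_right]
      _ ≤ 1 := by simpa [hc, hx] using real_inner_le_norm c x
  obtain ⟨p, hp⟩ : ∃ p, p = B⁻¹ := ⟨_, rfl⟩
  have hp0 : 0 < p := by rw [hp]; positivity
  have hpB : p * B = 1 := by rw [hp]; field_simp
  have hp1 : p ≤ 1 := by nlinarith
  have hpc : Real.cos R ≤ p := by nlinarith
  obtain ⟨m, hm⟩ : ∃ m, m = r * (1 - p ^ 2) := ⟨_, rfl⟩
  have hm0 : 0 ≤ m := by rw [hm]; exact mul_nonneg r0.le (by nlinarith)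
  obtain ⟨t, t1, μ, m1, m2, m3, m4⟩ := main v (fun δ _ e2 => funext fun i =>
    Fintype.linearIndependent_iff.1 hl δ (by rw [← D_apply]; exact e2) i)
    (((p ^ 2 + m) / p) • x) k d hk.le univ (by simp) (fun i => p * β i)
    (fun i => mul_nonneg hp0.le (hβ i)) (fun i hi => absurd (mem_univ i) hi)
    (by rw [← mul_sum, ← hB, hpB])
  have e1 : D v (fun i => p * β i) = p • x := by
    rw [D_apply, hxe, smul_sum]; simp only [smul_smul]
  have e2 : Q v (fun i => p * β i) = 1 := by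
    rw [Q_apply]; simp only [hv, one_pow, mul_one]; rw [← mul_sum, ← hB, hpB]
  rw [e1, e2, rho_eq hk, ← hr, ← sub_smul, norm_smul, norm_smul, hx, mul_one, mul_one,
    Real.norm_eq_abs, Real.norm_eq_abs, sq_abs, sq_abs, ← hm, norm_sub_sq_real, norm_smul, hx,
    mul_one, Real.norm_eq_abs, sq_abs, real_inner_smul_right] at m4
  obtain ⟨Y, hY⟩ : ∃ Y, Y = D v μ := ⟨_, rfl⟩
  rw [← hY] at m4
  have hY0 : 0 < ‖Y‖ := by
    rw [norm_pos_iff]
    intro h0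
    have := Fintype.linearIndependent_iff.1 hl μ (by rw [← D_apply, ← hY, h0])
    simp [this] at m3
  have hy := h t t1 (‖Y‖⁻¹ • Y) (by
    have := cone_mem v t μ m1 m2 (inv_pos.2 hY0).le
    rwa [← D_apply, ← hY] at this) (by rw [norm_smul, norm_inv, norm_norm]; field_simp)
  rw [angle_smul_right_of_pos _ _ (by positivity)] at hy
  refine hy.trans ?_
  rw [Real.arctan_eq_arccos (mul_nonneg (Real.sqrt_nonneg _)
    (Real.tan_nonneg_of_nonneg_of_le_pi_div_two h0.le h1.le)), angle, hx, one_mul, real_inner_comm]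
  refine Real.arccos_le_arccos ?_
  obtain ⟨s, hs⟩ : ∃ s, s = √(p ^ 2 + m) := ⟨_, rfl⟩
  have hs0 : 0 < s := by rw [hs]; positivity
  have hs2 : s ^ 2 = p ^ 2 + m := by rw [hs, Real.sq_sqrt (by positivity)]
  have k1 : ‖Y‖ ^ 2 + s ^ 2 ≤ 2 * (s ^ 2 / p * ⟪Y, x⟫) := by
    have : (p - (p ^ 2 + m) / p) ^ 2 + m = ((p ^ 2 + m) / p) ^ 2 - (p ^ 2 + m) := by
      field_simp; ring
    rw [hs2]; linarith
  have k2 : p / s ≤ ⟪Y, x⟫ / ‖Y‖ := by
    rw [div_le_div_iff₀ hs0 hY0]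
    have : 2 * (s ^ 2 / p * ⟪Y, x⟫) = 2 * s / p * (⟪Y, x⟫ * s) := by ring
    have k3 : 2 * s / p * (p * ‖Y‖) ≤ 2 * s / p * (⟪Y, x⟫ * s) := by
      have : 2 * s / p * (p * ‖Y‖) = 2 * s * ‖Y‖ := by field_simp
      nlinarith [sq_nonneg (‖Y‖ - s)]
    exact le_of_mul_le_mul_left k3 (by positivity)
  refine le_trans ?_ k2
  rw [inv_le_comm₀ (by positivity) (by positivity), inv_div]
  refine Real.le_sqrt_of_sq_le ?_
  rw [mul_pow, Real.sq_sqrt r0.le, div_pow, hs2, hm, Real.tan_eq_sin_div_cos, div_pow, Real.sin_sq]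
  have : (1 - p ^ 2) / p ^ 2 ≤ (1 - Real.cos R ^ 2) / Real.cos R ^ 2 := by
    rw [div_le_div_iff₀ (by positivity) (by positivity)]; nlinarith
  calc (p ^ 2 + r * (1 - p ^ 2)) / p ^ 2 = 1 + r * ((1 - p ^ 2) / p ^ 2) := by field_simp
    _ ≤ _ := by gcongr

lemma lor_ge {d : ℕ} {p q : ℝ × Eu d} (hp : p ∈ Hyp d) (hq : q ∈ Hyp d) : 1 ≤ lor p q := by
  obtain ⟨p0, p1⟩ := hp
  obtain ⟨q0, q1⟩ := hq
  simp only [lor, real_inner_self_eq_norm_sq] at *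
  have h := real_inner_le_norm p.2 q.2
  have h2 : 1 + ‖p.2‖ * ‖q.2‖ ≤ p.1 * q.1 :=
    (abs_le_of_sq_le_sq' (by nlinarith [sq_nonneg (‖p.2‖ - ‖q.2‖)]) (by positivity)).2
  linarith

noncomputable def pj {d : ℕ} (x u : ℝ × Eu d) : Eu d :=
  u.2 + (⟪x.2, u.2⟫ / (1 + x.1) - u.1) • x.2

lemma pj_norm {d : ℕ} {x : ℝ × Eu d} (hx : x ∈ Hyp d) (u : ℝ × Eu d) :
    ‖pj x u‖ ^ 2 = lor x u ^ 2 - lor u u := by
  obtain ⟨x0, x1⟩ := hx
  simp only [lor, real_inner_self_eq_norm_sq] at *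
  rw [pj, norm_add_sq_real, norm_smul, mul_pow, Real.norm_eq_abs, sq_abs, real_inner_smul_right,
    real_inner_comm, show ‖x.2‖ ^ 2 = x.1 * x.1 - 1 by linarith]
  field_simp; ring

lemma pj_sum {d : ℕ} {ι : Type} [Fintype ι] (x : ℝ × Eu d) (a : ι → ℝ) (v : ι → ℝ × Eu d) :
    pj x (∑ i, a i • v i) = ∑ i, a i • pj x (v i) := by
  simp only [pj, Prod.fst_sum, Prod.snd_sum, Prod.smul_fst, Prod.smul_snd, inner_sum,
    real_inner_smul_right, smul_add, sum_add_distrib, smul_smul, ← sum_smul, smul_eq_mul, sum_div,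
    ← sum_sub_distrib, mul_sub, mul_div_assoc]

lemma lor_sum {d : ℕ} {ι : Type} [Fintype ι] (x : ℝ × Eu d) (a : ι → ℝ) (v : ι → ℝ × Eu d) :
    lor x (∑ i, a i • v i) = ∑ i, a i * lor x (v i) := by
  simp only [lor, Prod.fst_sum, Prod.snd_sum, Prod.smul_fst, Prod.smul_snd, inner_sum,
    real_inner_smul_right, smul_eq_mul, mul_sum, ← sum_sub_distrib]
  exact sum_congr rfl fun i _ => by ring

lemma pj_inj {d : ℕ} {x : ℝ × Eu d} (hx : x ∈ Hyp d) {u : ℝ × Eu d} (h1 : pj x u = 0)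
    (h2 : lor x u = 0) : u = 0 := by
  obtain ⟨x0, x1⟩ := hx
  have h3 := congrArg (fun z => ⟪x.2, z⟫) h1
  simp only [lor, real_inner_self_eq_norm_sq, pj, inner_add_right, real_inner_smul_right,
    inner_zero_right] at *
  have h4 : u.1 = 0 := by
    rw [show ‖x.2‖ ^ 2 = x.1 * x.1 - 1 by linarith, show ⟪x.2, u.2⟫ = x.1 * u.1 by linarith] at h3
    field_simp at h3
    have : u.1 * (1 + x.1) = 0 := by linarith
    exact (mul_eq_zero.1 this).resolve_right (by linarith)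
  have h5 : ⟪x.2, u.2⟫ = 0 := by rw [h4] at h2; linarith
  rw [h4, h5] at h1
  exact Prod.ext h4 (by simpa using h1)

theorem hyp (d k : ℕ) (hk : k < d) (R : ℝ) (h0 : 0 < R)
    (c : ℝ × Eu d) (hc : c ∈ Hyp d) (v : Fin (d + 1) → ℝ × Eu d) (hv : ∀ i, v i ∈ Hyp d)
    (hR : ∀ i, hdist c (v i) ≤ R) (hl : LinearIndependent ℝ v) (x : ℝ × Eu d) (hx : x ∈ Hyp d)
    (hxS : x ∈ cone v univ) (ρ : ℝ)
    (h : ∀ t : Finset (Fin (d + 1)), t.card = k + 1 → ∀ y ∈ cone v t, y ∈ Hyp d → ρ ≤ hdist x y) :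
    ρ ≤ Real.artanh (√(((d : ℝ) - k) / (d * (k + 1))) * Real.tanh R) := by
  obtain ⟨β, hβ, hxe⟩ := hxS
  obtain ⟨r0, r1⟩ := rho_bd hk
  obtain ⟨r, hr⟩ : ∃ r, r = ((d : ℝ) - k) / (d * (k + 1)) := ⟨_, rfl⟩
  rw [← hr] at r0 r1 ⊢
  have hch := Real.cosh_pos R
  have hcv : ∀ i, lor c (v i) ≤ Real.cosh R := by
    intro i
    have h1 := lor_ge hc (hv i)
    have := hR i
    rwa [hdist, ← Real.arcosh_cosh h0.le, Real.arcosh_le_arcosh (by linarith) hch] at this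
  have hB : 1 ≤ (∑ i, β i) * Real.cosh R := by
    calc 1 ≤ lor c x := lor_ge hc hx
      _ = ∑ i, β i * lor c (v i) := by rw [hxe, lor_sum]
      _ ≤ ∑ i, β i * Real.cosh R := sum_le_sum fun i _ => mul_le_mul_of_nonneg_left (hcv i) (hβ i)
      _ = _ := by rw [sum_mul]
  have hci : ∀ i, 0 < lor x (v i) := fun i => lt_of_lt_of_le one_pos (lor_ge hx (hv i))
  have h1 : ∑ i, β i * lor x (v i) = 1 := by rw [← lor_sum, ← hxe, hx.2]
  have hD : ∀ δ : Fin (d + 1) → ℝ, D (fun i => (lor x (v i))⁻¹ • pj x (v i)) δ =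
      pj x (∑ i, (δ i * (lor x (v i))⁻¹) • v i) := by
    intro δ; rw [D_apply, pj_sum]; simp only [smul_smul]
  have hL : ∀ δ : Fin (d + 1) → ℝ, lor x (∑ i, (δ i * (lor x (v i))⁻¹) • v i) = ∑ i, δ i := by
    intro δ; rw [lor_sum]
    exact sum_congr rfl fun i _ => by have := hci i; field_simp
  obtain ⟨t, t1, μ, m1, m2, m3, m4⟩ := main (fun i => (lor x (v i))⁻¹ • pj x (v i))
    (fun δ e1 e2 => funext fun i => by
      have := Fintype.linearIndependent_iff.1 hl _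
        (pj_inj hx (by rw [← hD]; exact e2) (by rw [hL]; exact e1)) i
      exact (mul_eq_zero.1 this).resolve_right (inv_pos.2 (hci i)).ne')
    0 k d hk.le univ (by simp) (fun i => β i * lor x (v i))
    (fun i => mul_nonneg (hβ i) (hci i).le) (fun i hi => absurd (mem_univ i) hi) h1
  have e1 : D (fun i => (lor x (v i))⁻¹ • pj x (v i)) (fun i => β i * lor x (v i)) = 0 := by
    rw [hD]
    have : ∑ i, (β i * lor x (v i) * (lor x (v i))⁻¹) • v i = x := by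
      conv_rhs => rw [hxe]
      exact sum_congr rfl fun i _ => by rw [mul_inv_cancel_right₀ (hci i).ne']
    have h2 := pj_norm hx x
    rw [hx.2] at h2
    rw [this, ← norm_eq_zero]
    exact pow_eq_zero_iff (two_ne_zero) |>.1 (by linarith)
  have e2 : Q (fun i => (lor x (v i))⁻¹ • pj x (v i)) (fun i => β i * lor x (v i)) ≤
      Real.tanh R ^ 2 := by
    have h2 : Q (fun i => (lor x (v i))⁻¹ • pj x (v i)) (fun i => β i * lor x (v i)) =
        ∑ i, (β i * lor x (v i) - β i * (lor x (v i))⁻¹) := by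
      rw [Q_apply]
      refine sum_congr rfl fun i _ => ?_
      have := hci i
      rw [norm_smul, mul_pow, pj_norm hx, (hv i).2, Real.norm_eq_abs, sq_abs]
      field_simp
    have h3 : ∑ i, (2 * (Real.cosh R)⁻¹ * β i - (Real.cosh R)⁻¹ ^ 2 * (β i * lor x (v i))) ≤
        ∑ i, β i * (lor x (v i))⁻¹ := by
      refine sum_le_sum fun i _ => ?_
      have := hci i
      have h4 : β i * (lor x (v i))⁻¹ - (2 * (Real.cosh R)⁻¹ * β i
          - (Real.cosh R)⁻¹ ^ 2 * (β i * lor x (v i))) =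
          β i * lor x (v i) * ((lor x (v i))⁻¹ - (Real.cosh R)⁻¹) ^ 2 := by field_simp; ring
      have h5 := mul_nonneg (mul_nonneg (hβ i) this.le)
        (sq_nonneg ((lor x (v i))⁻¹ - (Real.cosh R)⁻¹))
      linarith
    rw [sum_sub_distrib, ← mul_sum, ← mul_sum, h1] at h3
    rw [h2, sum_sub_distrib, h1, Real.tanh_eq_sinh_div_cosh, div_pow, Real.sinh_sq]
    have h6 : (Real.cosh R)⁻¹ ≤ ∑ i, β i := by rwa [inv_le_iff_one_le_mul₀ hch]
    have h7 : (Real.cosh R ^ 2 - 1) / Real.cosh R ^ 2 = 1 - (Real.cosh R)⁻¹ ^ 2 := by field_simp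
    have h8 := mul_le_mul_of_nonneg_left h6 (inv_pos.2 hch).le
    rw [h7]; nlinarith
  rw [e1, rho_eq hk, ← hr, hD, sub_zero, sub_zero, norm_zero, pj_norm hx, hL, m3] at m4
  obtain ⟨Y, hY⟩ : ∃ Y, Y = ∑ i, (μ i * (lor x (v i))⁻¹) • v i := ⟨_, rfl⟩
  have hY1 : lor x Y = 1 := by rw [hY, hL, m3]
  have hY2 : 0 < Y.1 := by
    rw [hY, Prod.fst_sum]
    obtain ⟨j, -, hj⟩ : ∃ j ∈ univ, μ j ≠ 0 := exists_ne_zero_of_sum_ne_zero (by rw [m3]; norm_num)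
    exact sum_pos' (fun i _ => mul_nonneg (mul_nonneg (m1 i) (inv_pos.2 (hci i)).le) (hv i).1.le)
      ⟨j, mem_univ j, mul_pos (mul_pos (lt_of_le_of_ne (m1 j) hj.symm) (inv_pos.2 (hci j))) (hv j).1⟩
  have hmem := fun s (hs : 0 ≤ s) => cone_mem v t (fun i => μ i * (lor x (v i))⁻¹)
    (fun i => mul_nonneg (m1 i) (inv_pos.2 (hci i)).le) (fun i hi => by rw [m2 i hi, zero_mul]) hs
  rw [← hY] at m4 hmem
  obtain ⟨z, hz⟩ : ∃ z, z = √r * Real.tanh R := ⟨_, rfl⟩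
  have ht0 : 0 ≤ Real.tanh R := by
    rw [Real.tanh_eq_sinh_div_cosh]; exact div_nonneg (Real.sinh_nonneg_iff.2 h0.le) hch.le
  have ht1 := Real.tanh_lt_one R
  have hz0 : 0 ≤ z := by rw [hz]; positivity
  have hz1 : z < 1 := by
    have : √r ≤ 1 := Real.sqrt_le_one.2 r1
    rw [hz]; nlinarith
  have hz2 : z ^ 2 = r * Real.tanh R ^ 2 := by rw [hz, mul_pow, Real.sq_sqrt r0.le]
  have hYY : 1 - z ^ 2 ≤ lor Y Y := by
    have := mul_le_mul_of_nonneg_left e2 r0.le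
    rw [hz2]; nlinarith
  have hz3 : 0 < 1 - z ^ 2 := by nlinarith
  have hs := Real.sqrt_pos.2 (hz3.trans_le hYY)
  have hsm : ∀ (s : ℝ) (p q : ℝ × Eu d), lor p (s • q) = s * lor p q := by
    intro s p q; simp only [lor, Prod.smul_fst, Prod.smul_snd, real_inner_smul_right, smul_eq_mul]
    ring
  have hy := h t t1 _ (hmem _ (inv_pos.2 hs).le) ⟨mul_pos (inv_pos.2 hs) hY2, by
    have : lor ((√(lor Y Y))⁻¹ • Y) Y = (√(lor Y Y))⁻¹ * lor Y Y := by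
      simp only [lor, Prod.smul_fst, Prod.smul_snd, real_inner_smul_left, smul_eq_mul]; ring
    rw [hsm, this]
    field_simp
    rw [Real.sq_sqrt (hz3.trans_le hYY).le]⟩
  rw [hdist, hsm, hY1, mul_one] at hy
  rw [← hz, ← Real.arcosh_cosh (Real.artanh_nonneg hz0), Real.cosh_artanh ⟨by linarith, hz1⟩]
  refine hy.trans ((Real.arcosh_le_arcosh (inv_pos.2 hs) (by positivity)).2 ?_)
  rw [one_div]
  exact inv_anti₀ (Real.sqrt_pos.2 hz3) (Real.sqrt_le_sqrt hYY)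

end Pool.Agent.H.MP_fc7dfc_gt
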